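import Pool.Agent.H1.HopfB

open Pool.Agent.H1.Hopf

theorem Pool.Agent.Results.MP_4ba699_an.Disproof.result (k m : ℕ) :
    ∃ u v : Pt (k + 1) → ℝ,
      ContDiff ℝ (⊤ : ℕ∞) u ∧ ContDiff ℝ (⊤ : ℕ∞) v ∧
      (∀ p ∈ Omega (k + 1), v p ≤ u p ∧ 0 ≤ v p) ∧
      (∀ y, ‖y‖ < 1 → u (0, y) = v (0, y)) ∧ u (0, 0) = 0 ∧ v (0, 0) = 0 ∧
      dt u (0, 0) = 0 ∧ (∀ p ∈ Omega (k + 1), 0 < dt u p) ∧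
      (∀ t s y, 0 ≤ t → t ≤ 1 → 0 < s → s < 1 → ‖y‖ < 1 → u (t, y) = v (s, y) →
        sigmaCurv m u (t, y) ≤ sigmaCurv m v (s, y)) ∧
      ContDiff ℝ (⊤ : ℕ∞) (fun p : Pt (k + 1) => if 0 ≤ p.1 then v p else u (-p.1, p.2)) ∧
      (∀ r > 0, ∃ p ∈ Omega (k + 1), p.1 < r ∧ ‖p.2‖ < r ∧ u p ≠ v p ∧ v p ≠ 0) :=
  mainB k m
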